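import Pool.Agent.N89.HX.Stm
import Pool.Agent.W440.SA.TRZ
import Pool.Agent.W578.SA.TRK

/-!
Project HX (helper89), task TRH: transfer of the irreducibility of the resolvents to large
characteristic (helper206).
-/

set_option autoImplicit false

namespace Pool.Agent.N206.HX.TRH

open Polynomial NumberField Pool.Agent.W659 Pool.Agent.W659.SA
  Pool.Agent.N89.GS Pool.Agent.N89.BD Pool.Agent.N89.HX

lemma map_rs {A B : Type} [CommRing A] [CommRing B] (θ : A →+* B) {e : ℕ}
    (R : Fin e.factorial → MvPolynomial (Fin (e + 1) ⊕ Fin e) ℤ) (f : Fin (e + 1) → A)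
    (ω : Fin e → A) : (rs R f ω).map θ = rs R (fun i => θ (f i)) (fun i => θ (ω i)) := by
  unfold rs
  rw [Polynomial.map_add, Polynomial.map_pow, Polynomial.map_X, Polynomial.map_sum]
  congr 1
  refine Finset.sum_congr rfl (fun i _ => ?_)
  rw [Polynomial.map_mul, Polynomial.map_pow, Polynomial.map_X, Polynomial.map_C]
  congr 2
  have h1 : θ (MvPolynomial.aeval (Sum.elim f ω) (R i)) =
      (θ.comp (MvPolynomial.aeval (Sum.elim f ω) :
        MvPolynomial (Fin (e + 1) ⊕ Fin e) ℤ →ₐ[ℤ] A).toRingHom) (R i) := rfl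
  have h2 : MvPolynomial.aeval (Sum.elim (fun i => θ (f i)) (fun i => θ (ω i))) (R i) =
      ((MvPolynomial.aeval (Sum.elim (fun i => θ (f i)) (fun i => θ (ω i))) :
        MvPolynomial (Fin (e + 1) ⊕ Fin e) ℤ →ₐ[ℤ] B).toRingHom) (R i) := rfl
  rw [h1, h2]
  congr 1
  apply MvPolynomial.ringHom_ext
  · intro z; simp
  · rintro (j | j) <;> simp

lemma map_bp {A B : Type} [CommRing A] [CommRing B] (θ : A →+* B) {D N : ℕ}
    (h : Fin D → Fin (N + 1) → A) :
    (bp h).map (mapRingHom θ) = bp (fun i j => θ (h i j)) := by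
  unfold bp
  simp only [Polynomial.map_add, Polynomial.map_pow, Polynomial.map_X, Polynomial.map_sum,
    Polynomial.map_mul, Polynomial.map_C, coe_mapRingHom]

lemma map_ln {A B : Type} [CommRing A] [CommRing B] (θ : A →+* B) {n : ℕ}
    (F : MvPolynomial (Fin n) A) (y v : Fin n → A) :
    mapRingHom θ (ln F y v) =
      ln (MvPolynomial.map θ F) (fun i => θ (y i)) (fun i => θ (v i)) := by
  unfold ln
  rw [MvPolynomial.eval₂_map]
  have h1 := MvPolynomial.eval₂_comp_left (mapRingHom θ) (C : A →+* A[X])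
    (fun j => C (y j) + C (v j) * X) F
  rw [h1]
  congr 1
  · ext1 z
    simp
  · funext j
    simp

lemma eval_spc {O k : Type} [CommRing O] [CommRing k] (φ : O →+* k) {r s n : ℕ}
    (F : Pol O r s n) (V : Fin r → Fin 3 → k) (u : Fin s → k) (t : Fin n → k) :
    MvPolynomial.eval t (spc φ F V u) = vl φ F V u t := by
  unfold spc vl
  rw [MvPolynomial.eval₂_comp_left (MvPolynomial.eval t)]
  congr 1
  · ext1 z
    simp
  · funext j
    rcases j with ij | l | i <;> simp

/-- the number of the parameters -/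
abbrev mm (n e : ℕ) : ℕ := n + n + e

/-- the indices of the parameters -/
def yI {n e : ℕ} (i : Fin n) : Fin (mm n e) := Fin.castAdd e (Fin.castAdd n i)
def vI {n e : ℕ} (i : Fin n) : Fin (mm n e) := Fin.castAdd e (Fin.natAdd n i)
def wI {n e : ℕ} (i : Fin e) : Fin (mm n e) := Fin.natAdd (n + n) i

/-- the generic line -/
noncomputable def gl {O : Type} [CommRing O] {r s n e : ℕ} (F : Pol O r s n) :
    (Pol O r s (mm n e))[X] :=
  ln (spc (MvPolynomial.C : O →+* Pol O r s (mm n e)) F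
    (fun i j => MvPolynomial.X (Sum.inl (i, j))) (fun l => MvPolynomial.X (Sum.inr (Sum.inl l))))
    (fun i => MvPolynomial.X (Sum.inr (Sum.inr (yI i))))
    (fun i => MvPolynomial.X (Sum.inr (Sum.inr (vI i))))

/-- the coefficients of the resolvent, over an abstract ring (for the instances) -/
noncomputable def cf {A : Type} [CommRing A] {e : ℕ}
    (R : Fin e.factorial → MvPolynomial (Fin (e + 1) ⊕ Fin e) ℤ) (f : Fin (e + 1) → A)
    (ω : Fin e → A) (i : Fin e.factorial) : A := MvPolynomial.aeval (Sum.elim f ω) (R i)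

lemma rs_cf {A : Type} [CommRing A] {e : ℕ}
    (R : Fin e.factorial → MvPolynomial (Fin (e + 1) ⊕ Fin e) ℤ) (f : Fin (e + 1) → A)
    (ω : Fin e → A) : rs R f ω = X ^ e.factorial + ∑ i, C (cf R f ω i) * X ^ (i : ℕ) := rfl

/-- the coefficients of the resolvent of the generic line -/
noncomputable def rc {O : Type} [CommRing O] {r s n e : ℕ}
    (R : Fin e.factorial → MvPolynomial (Fin (e + 1) ⊕ Fin e) ℤ) (F : Fin (e + 1) → Pol O r s n)
    (i : Fin e.factorial) : (Pol O r s (mm n e))[X] :=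
  cf R (fun i => gl (e := e) (F i)) (fun i => C (MvPolynomial.X (Sum.inr (Sum.inr (wI i))))) i

/-- a bound for their degrees -/
noncomputable def bd {O : Type} [CommRing O] {r s n e : ℕ}
    (R : Fin e.factorial → MvPolynomial (Fin (e + 1) ⊕ Fin e) ℤ) (F : Fin (e + 1) → Pol O r s n) :
    ℕ := Finset.univ.sup fun i => (rc R F i).natDegree

/-- the coefficients -/
noncomputable def hh {O : Type} [CommRing O] {r s n e : ℕ}
    (R : Fin e.factorial → MvPolynomial (Fin (e + 1) ⊕ Fin e) ℤ) (F : Fin (e + 1) → Pol O r s n)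
    (i : Fin e.factorial) (j : Fin (bd R F + 1)) : Pol O r s (mm n e) := (rc R F i).coeff j

lemma rs_gen {O : Type} [CommRing O] {r s n e : ℕ}
    (R : Fin e.factorial → MvPolynomial (Fin (e + 1) ⊕ Fin e) ℤ) (F : Fin (e + 1) → Pol O r s n) :
    rs R (fun i => gl (e := e) (F i)) (fun i => C (MvPolynomial.X (Sum.inr (Sum.inr (wI i))))) =
      bp (hh R F) := by
  have hi : ∀ i, rc R F i = ∑ j : Fin (bd R F + 1), C (hh R F i j) * X ^ (j : ℕ) := by
    intro i
    have h1 : (rc R F i).natDegree < bd R F + 1 :=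
      Nat.lt_succ_of_le (Finset.le_sup (f := fun i => (rc R F i).natDegree) (Finset.mem_univ i))
    simp only [hh]
    generalize rc R F i = q at h1 ⊢
    generalize bd R F + 1 = N at h1 ⊢
    conv_lhs => rw [Polynomial.as_sum_range' q N h1]
    rw [Finset.sum_range]
    refine Finset.sum_congr rfl (fun j _ => ?_)
    rw [← C_mul_X_pow_eq_monomial]
  rw [rs_cf]
  unfold bp
  refine congrArg₂ (· + ·) rfl ?_
  refine Finset.sum_congr rfl (fun i _ => ?_)
  rw [← hi i, rc]

/-- the specialisation -/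
lemma rs_spec {O k : Type} [CommRing O] [CommRing k] (φ : O →+* k) {r s n e : ℕ}
    (R : Fin e.factorial → MvPolynomial (Fin (e + 1) ⊕ Fin e) ℤ) (F : Fin (e + 1) → Pol O r s n)
    (V : Fin r → Fin 3 → k) (u : Fin s → k) (t : Fin (mm n e) → k) :
    rs R (fun i => ln (spc φ (F i) V u) (fun i => t (yI i)) (fun i => t (vI i)))
      (fun i => C (t (wI i))) = bp (fun i j => vl φ (hh R F i j) V u t) := by
  set Ψ : Pol O r s (mm n e) →+* k :=
    MvPolynomial.eval₂Hom φ (Sum.elim (fun ij => V ij.1 ij.2) (Sum.elim u t)) with hΨ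
  have hΨv : ∀ G, vl φ G V u t = Ψ G := fun G => rfl
  simp only [hΨv]
  rw [← map_bp Ψ, ← rs_gen, map_rs]
  congr 1
  · funext i
    unfold gl
    rw [map_ln]
    congr 1
    · rw [Pool.Agent.W440.SA.TRZ.spc_eq, Pool.Agent.W440.SA.TRZ.spc_eq,
        Pool.Agent.W440.SA.TRZ.map_gsp]
      congr 1
      · ext z
        simp [hΨ]
      · funext ij
        simp [hΨ]
      · funext l
        simp [hΨ]
    · funext j
      simp [hΨ]
    · funext j
      simp [hΨ]
  · funext i
    simp [hΨ]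

theorem main : S_NF → S_TRH := by
  intro hNF K _ _ r s n e a b R F σ he hC
  obtain ⟨J, hJ, Δ, hΔ⟩ := hNF e.factorial (bd R.R F) (Nat.factorial_pos e)
  set G : J → Pol (𝓞 K) r s (mm n e) := fun j =>
    MvPolynomial.aeval (fun ij : Fin e.factorial × Fin (bd R.R F + 1) => hh R.R F ij.1 ij.2) (Δ j)
    with hG
  have hGv : ∀ (k : Type) [Field k] (φ : 𝓞 K →+* k) (V : Fin r → Fin 3 → k) (u : Fin s → k)
      (t : Fin (mm n e) → k) (j : J),
      MvPolynomial.aeval (fun ij : Fin e.factorial × Fin (bd R.R F + 1) =>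
        vl φ (hh R.R F ij.1 ij.2) V u t) (Δ j) = vl φ (G j) V u t := by
    intro k _ φ V u t j
    set Ψ : Pol (𝓞 K) r s (mm n e) →+* k :=
      MvPolynomial.eval₂Hom φ (Sum.elim (fun ij => V ij.1 ij.2) (Sum.elim u t)) with hΨ
    have hΨv : ∀ G, vl φ G V u t = Ψ G := fun G => rfl
    simp only [hΨv, hG]
    have h1 : Ψ (MvPolynomial.aeval (fun ij : Fin e.factorial × Fin (bd R.R F + 1) =>
        hh R.R F ij.1 ij.2) (Δ j)) = (Ψ.comp (MvPolynomial.aeval
          (fun ij : Fin e.factorial × Fin (bd R.R F + 1) => hh R.R F ij.1 ij.2) :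
            MvPolynomial _ ℤ →ₐ[ℤ] _).toRingHom) (Δ j) := rfl
    have h2 : MvPolynomial.aeval (fun ij : Fin e.factorial × Fin (bd R.R F + 1) =>
        Ψ (hh R.R F ij.1 ij.2)) (Δ j) = ((MvPolynomial.aeval
          (fun ij : Fin e.factorial × Fin (bd R.R F + 1) => Ψ (hh R.R F ij.1 ij.2)) :
            MvPolynomial _ ℤ →ₐ[ℤ] _).toRingHom) (Δ j) := rfl
    rw [h1, h2]
    congr 1
    apply MvPolynomial.ringHom_ext
    · intro z; simp
    · intro ij; simp
  have key : ∀ (k : Type) [Field k] [IsAlgClosed k] (φ : 𝓞 K →+* k) (V : Fin r → Fin 3 → k)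
      (u : Fin s → k) (t : Fin (mm n e) → k),
      Irreducible (rs R.R (fun i => ln (spc φ (F i) V u) (fun i => t (yI i)) (fun i => t (vI i)))
        (fun i => C (t (wI i)))) ↔ ∃ j, vl φ (G j) V u t ≠ 0 := by
    intro k _ _ φ V u t
    rw [rs_spec, hΔ]
    simp only [hGv]
  have hTRZ := Pool.Agent.W440.SA.TRZ.main Pool.Agent.W578.SA.TRK.main
  obtain ⟨p₁, hp₁⟩ := hTRZ K r s (mm n e) a b J G σ (by
    intro V u hV hu
    obtain ⟨y, v, ω, hirr⟩ := hC V u ⟨hV, hu⟩
    set t : Fin (mm n e) → ℂ := Fin.append (Fin.append y v) ω with ht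
    have h1 : (fun i => t (yI i)) = y := by
      funext i
      rw [ht, yI, Fin.append_left, Fin.append_left]
    have h2 : (fun i => t (vI i)) = v := by
      funext i
      rw [ht, vI, Fin.append_left, Fin.append_right]
    have h3 : ∀ i, t (wI i) = ω i := by
      intro i
      rw [ht, wI, Fin.append_right]
    have h4 := (key ℂ (toC σ) V u t).1 (by
      rw [h1, h2]
      simp only [h3]
      exact hirr)
    obtain ⟨j, hj⟩ := h4
    refine ⟨j, fun h0 => hj ?_⟩
    rw [← eval_spc, h0, map_zero])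
  refine ⟨p₁, fun p hp hpp Ω _ _ _ φ V u hVu => ?_⟩
  obtain ⟨j, hj⟩ := hp₁ p hp hpp Ω φ V u hVu.1 hVu.2
  have hinf : Infinite Ω := IsAlgClosed.instInfinite
  obtain ⟨t, ht⟩ : ∃ t, MvPolynomial.eval t (spc φ (G j) V u) ≠ 0 := by
    by_contra hcon
    push Not at hcon
    apply hj
    apply MvPolynomial.funext
    intro t
    rw [hcon t, map_zero]
  rw [eval_spc] at ht
  exact ⟨_, _, _, (key Ω φ V u t).2 ⟨j, ht⟩⟩

end Pool.Agent.N206.HX.TRH
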